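import Pool.Agent.Helper91.SG.Final

namespace Pool.Agent.Results.MP_01f640_al.PeriodicGroups

open Pool.Agent.Helper91.SG.Final

universe u

/-- **Q2 has a negative answer.** The class of finite semigroups that embed into `P(G)` for some
periodic group `G` is not decidable from multiplication tables. -/
theorem result :
    ¬ ComputablePred fun T : List (List ℕ) => ∃ h : IsSemigroupTable T,
      @EmbedsPeriodic.{u} (Elt T) (tableSemigroup T h) := fun hP =>
  inseparable.{u} _ hP (fun T hT h => ⟨hT, finite_periodic T hT h⟩) (fun _ _ ⟨_, h⟩ => h)

end Pool.Agent.Results.MP_01f640_al.PeriodicGroups
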