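import Pool.Agent.Helper91.R4

namespace Pool.Agent.Results.MP_01f640_al.RegularSemigroups

open Pointwise Pool.Agent.Helper91.PG

universe u v

/-- `S` embeds into the power semigroup `P(G)` (all subsets of `G`, the empty set included,
with the product `A * B = {a * b : a ∈ A, b ∈ B}`). -/
def EmbedsInPower (S : Type*) [Semigroup S] (G : Type*) [Group G] : Prop :=
  ∃ φ : S → Set G, Function.Injective φ ∧ ∀ s t : S, φ (s * t) = φ s * φ t

/-- `S` is regular: every `s` has some `t` with `s t s = s`. -/
def IsRegular (S : Type*) [Semigroup S] : Prop := ∀ s : S, ∃ t : S, s * t * s = s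

/-- The test on the multiplication table: idempotents commute, and whenever `t` is an inverse
of `s` and `s (s t)(t s) = (s t)(t s)`, the element `s` is idempotent. -/
def TableTest (S : Type*) [Semigroup S] : Prop :=
  (∀ e f : S, e * e = e → f * f = f → e * f = f * e) ∧
  (∀ s t : S, s * t * s = s → t * s * t = t →
    s * ((s * t) * (t * s)) = (s * t) * (t * s) → s * s = s)

/-! ### Multiplication tables -/

/-- The entry in row `i` and column `j` of the table `T` (a list of rows). -/
def entry (T : List (List ℕ)) (i j : ℕ) : ℕ := (T.getD i []).getD j 0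

/-- `T` is the multiplication table of a semigroup on `{0, …, n - 1}`, with `n` the number of
rows of `T`. -/
def IsSemigroupTable (T : List (List ℕ)) : Prop :=
  (∀ i < T.length, ∀ j < T.length, entry T i j < T.length) ∧
  (∀ i < T.length, ∀ j < T.length, ∀ k < T.length,
    entry T (entry T i j) k = entry T i (entry T j k))

/-- The semigroup with table `T` is regular. -/
def IsRegularTable (T : List (List ℕ)) : Prop :=
  ∀ i < T.length, ∃ j < T.length, entry T (entry T i j) i = i

/-- The semigroup with table `T` embeds into `P(G)`. -/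
def TableEmbeds (T : List (List ℕ)) (G : Type*) [Group G] : Prop :=
  ∃ φ : ℕ → Set G, Set.InjOn φ {i | i < T.length} ∧
    ∀ i < T.length, ∀ j < T.length, φ (entry T i j) = φ i * φ j

/-! ### The characterisation -/

lemma necessary {S : Type*} [Semigroup S] (hreg : IsRegular S) {G : Type*} [Group G]
    (hG : ∀ g : G, IsOfFinOrder g) (h : EmbedsInPower S G) : TableTest S := by
  obtain ⟨φ, h1, h2⟩ := h
  refine ⟨fun e f he hf => idem_comm_of hG ⟨h1, h2⟩ hreg he hf, ?_⟩
  intro s t hs ht hst
  exact star_of hG ⟨h1, h2⟩ hs ht hst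

lemma sufficient (S : Type u) [sg : Semigroup S] [Finite S] (hreg : IsRegular S)
    (h : TableTest S) : ∃ (G : Type u) (_ : Group G) (_ : Finite G), EmbedsInPower S G := by
  let _ : InvSem S := invSemOf S hreg h.1
  obtain ⟨G, hG, hF, φ, h1, h2⟩ := exists_embedding (S := S) h.2
  exact ⟨G, hG, hF, φ, h1, h2⟩

lemma embeds_transport {S : Type*} [Semigroup S] {G G' : Type*} [Group G] [Group G']
    (e : G ≃* G') (h : EmbedsInPower S G) : EmbedsInPower S G' := by
  obtain ⟨φ, h1, h2⟩ := h
  refine ⟨fun s => e '' φ s, ?_, ?_⟩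
  · intro s t hst
    exact h1 (e.injective.image_injective hst)
  · intro s t
    simp only
    rw [h2, Set.image_mul]

/-- An auxiliary `n`-element type in any universe. -/
def Cop (n : ℕ) : Type v := ULift.{v} (Fin n)

instance (n : ℕ) : Finite (Cop.{v} n) := by unfold Cop; infer_instance

lemma change_universe {S : Type*} [Semigroup S] {G : Type u} [Group G] [Finite G]
    (h : EmbedsInPower S G) :
    ∃ (G : Type v) (_ : Group G) (_ : Finite G), EmbedsInPower S G := by
  let e : Cop.{v} (Nat.card G) ≃ G := Equiv.ulift.trans (Finite.equivFin G).symm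
  let _ := e.group
  exact ⟨Cop.{v} (Nat.card G), inferInstance, inferInstance,
    embeds_transport e.mulEquiv.symm h⟩

theorem characterisation (S : Type u) [Semigroup S] [Finite S] (hreg : IsRegular S) :
    List.TFAE [
      ∃ (G : Type v) (_ : Group G) (_ : Finite G), EmbedsInPower S G,
      ∃ (G : Type v) (_ : Group G), (∀ g : G, IsOfFinOrder g) ∧ EmbedsInPower S G,
      TableTest S] := by
  tfae_have 1 → 2 := by
    rintro ⟨G, hG, hF, h⟩
    exact ⟨G, hG, fun g => isOfFinOrder_of_finite g, h⟩
  tfae_have 2 → 3 := by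
    rintro ⟨G, hG, hF, h⟩
    exact necessary hreg hF h
  tfae_have 3 → 1 := by
    intro h
    obtain ⟨G, hG, hF, h'⟩ := sufficient S hreg h
    exact change_universe h'
  tfae_finish

/-! ### The algorithm -/

/-- The elements of the semigroup of a table. -/
@[ext] structure Elt (T : List (List ℕ)) : Type where
  /-- the underlying number -/
  val : ℕ
  lt : val < T.length

instance (T : List (List ℕ)) : Finite (Elt T) :=
  Finite.of_injective (fun x : Elt T => (⟨x.val, x.lt⟩ : Fin T.length)) (by
    intro x y hxy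
    exact Elt.ext (congrArg Fin.val hxy))

/-- The semigroup of a table. -/
@[instance_reducible] def tableSemigroup (T : List (List ℕ)) (h : IsSemigroupTable T) :
    Semigroup (Elt T) where
  mul i j := ⟨entry T i.val j.val, h.1 i.val i.lt j.val j.lt⟩
  mul_assoc i j k := Elt.ext (h.2 i.val i.lt j.val j.lt k.val k.lt)

/-- The test, read off the table. -/
def TestT (T : List (List ℕ)) : Prop :=
  (∀ i < T.length, ∀ j < T.length, entry T i i = i → entry T j j = j →
    entry T i j = entry T j i) ∧
  (∀ i < T.length, ∀ j < T.length, entry T (entry T i j) i = i → entry T (entry T j i) j = j →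
    entry T i (entry T (entry T i j) (entry T j i)) = entry T (entry T i j) (entry T j i) →
    entry T i i = i)

lemma testT_iff (T : List (List ℕ)) (h : IsSemigroupTable T) :
    let _ := tableSemigroup T h
    TestT T ↔ TableTest (Elt T) := by
  let _ := tableSemigroup T h
  constructor
  · rintro ⟨h1, h2⟩
    refine ⟨?_, ?_⟩
    · intro e f he hf
      exact Elt.ext (h1 e.val e.lt f.val f.lt (congrArg Elt.val he) (congrArg Elt.val hf))
    · intro s t hs ht hst
      exact Elt.ext (h2 s.val s.lt t.val t.lt (congrArg Elt.val hs) (congrArg Elt.val ht)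
        (congrArg Elt.val hst))
  · rintro ⟨h1, h2⟩
    refine ⟨?_, ?_⟩
    · intro i hi j hj hii hjj
      exact congrArg Elt.val (h1 ⟨i, hi⟩ ⟨j, hj⟩ (Elt.ext hii) (Elt.ext hjj))
    · intro i hi j hj h3 h4 h5
      exact congrArg Elt.val (h2 ⟨i, hi⟩ ⟨j, hj⟩ (Elt.ext h3) (Elt.ext h4) (Elt.ext h5))

lemma regular_iff (T : List (List ℕ)) (h : IsSemigroupTable T) :
    let _ := tableSemigroup T h
    IsRegularTable T ↔ IsRegular (Elt T) := by
  let _ := tableSemigroup T h
  constructor
  · intro h1 s
    obtain ⟨j, hj, h2⟩ := h1 s.val s.lt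
    exact ⟨⟨j, hj⟩, Elt.ext h2⟩
  · intro h1 i hi
    obtain ⟨t, ht⟩ := h1 ⟨i, hi⟩
    exact ⟨t.val, t.lt, congrArg Elt.val ht⟩

lemma embeds_iff (T : List (List ℕ)) (h : IsSemigroupTable T) (G : Type*) [Group G] :
    let _ := tableSemigroup T h
    TableEmbeds T G ↔ EmbedsInPower (Elt T) G := by
  let _ := tableSemigroup T h
  constructor
  · rintro ⟨φ, h1, h2⟩
    refine ⟨fun i => φ i.val, ?_, ?_⟩
    · intro i j hij
      exact Elt.ext (h1 i.lt j.lt hij)
    · intro i j
      exact h2 i.val i.lt j.val j.lt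
  · rintro ⟨φ, h1, h2⟩
    refine ⟨fun i => if hi : i < T.length then φ ⟨i, hi⟩ else ∅, ?_, ?_⟩
    · intro i hi j hj hij
      simp only [Set.mem_ofPred_eq] at hi hj
      simp only [dif_pos hi, dif_pos hj] at hij
      exact congrArg Elt.val (h1 hij)
    · intro i hi j hj
      simp only [dif_pos hi, dif_pos hj, dif_pos (h.1 i hi j hj)]
      exact h2 ⟨i, hi⟩ ⟨j, hj⟩

section computability

open Primrec

variable {β : Type*} [Primcodable β]

lemma all_lt {f : β → ℕ} (hf : Primrec f) {p : ℕ × β → Prop} (hp : PrimrecPred p) :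
    PrimrecPred fun y => ∀ x < f y, p (x, y) := by
  have h1 : PrimrecRel fun (x : ℕ) (y : β) => p (x, y) := hp
  have h2 := h1.forall_mem_list
  exact (h2.comp (Primrec.list_range.comp hf) Primrec.id).of_eq (by simp)

lemma ex_lt {f : β → ℕ} (hf : Primrec f) {p : ℕ × β → Prop} (hp : PrimrecPred p) :
    PrimrecPred fun y => ∃ x < f y, p (x, y) := by
  have h1 : PrimrecRel fun (x : ℕ) (y : β) => p (x, y) := hp
  have h2 := h1.exists_mem_list
  exact (h2.comp (Primrec.list_range.comp hf) Primrec.id).of_eq (by simp)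

lemma imp_pred {p q : β → Prop} (hp : PrimrecPred p) (hq : PrimrecPred q) :
    PrimrecPred fun y => p y → q y :=
  (hp.not.or hq).of_eq (fun y => by tauto)

lemma entry_primrec {f : β → List (List ℕ)} {g k : β → ℕ} (hf : Primrec f) (hg : Primrec g)
    (hk : Primrec k) : Primrec fun y => entry (f y) (g y) (k y) := by
  unfold entry
  exact (Primrec.list_getD 0).comp ((Primrec.list_getD []).comp hf hg) hk

lemma isSemigroupTable_primrec : PrimrecPred IsSemigroupTable := by
  have hl : Primrec (fun T : List (List ℕ) => T.length) := Primrec.list_length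
  apply PrimrecPred.and
  · refine all_lt hl (p := fun q : ℕ × List (List ℕ) => ∀ j < q.2.length,
      entry q.2 q.1 j < q.2.length) ?_
    refine all_lt (hl.comp snd) (p := fun q : ℕ × (ℕ × List (List ℕ)) =>
      entry q.2.2 q.2.1 q.1 < q.2.2.length) ?_
    exact Primrec.nat_lt.comp (entry_primrec (snd.comp snd) (fst.comp snd) fst)
      (hl.comp (snd.comp snd))
  · refine all_lt hl (p := fun q : ℕ × List (List ℕ) => ∀ j < q.2.length, ∀ k < q.2.length,
      entry q.2 (entry q.2 q.1 j) k = entry q.2 q.1 (entry q.2 j k)) ?_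
    refine all_lt (hl.comp snd) (p := fun q : ℕ × (ℕ × List (List ℕ)) => ∀ k < q.2.2.length,
      entry q.2.2 (entry q.2.2 q.2.1 q.1) k = entry q.2.2 q.2.1 (entry q.2.2 q.1 k)) ?_
    refine all_lt (hl.comp (snd.comp snd)) (p := fun q : ℕ × (ℕ × (ℕ × List (List ℕ))) =>
      entry q.2.2.2 (entry q.2.2.2 q.2.2.1 q.2.1) q.1 =
        entry q.2.2.2 q.2.2.1 (entry q.2.2.2 q.2.1 q.1)) ?_
    have hT : Primrec (fun q : ℕ × (ℕ × (ℕ × List (List ℕ))) => q.2.2.2) :=
      snd.comp (snd.comp snd)
    have hi : Primrec (fun q : ℕ × (ℕ × (ℕ × List (List ℕ))) => q.2.2.1) :=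
      fst.comp (snd.comp snd)
    have hj : Primrec (fun q : ℕ × (ℕ × (ℕ × List (List ℕ))) => q.2.1) := fst.comp snd
    exact Primrec.eq.comp (entry_primrec hT (entry_primrec hT hi hj) fst)
      (entry_primrec hT hi (entry_primrec hT hj fst))

lemma isRegularTable_primrec : PrimrecPred IsRegularTable := by
  have hl : Primrec (fun T : List (List ℕ) => T.length) := Primrec.list_length
  refine all_lt hl (p := fun q : ℕ × List (List ℕ) => ∃ j < q.2.length,
    entry q.2 (entry q.2 q.1 j) q.1 = q.1) ?_
  refine ex_lt (hl.comp snd) (p := fun q : ℕ × (ℕ × List (List ℕ)) =>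
    entry q.2.2 (entry q.2.2 q.2.1 q.1) q.2.1 = q.2.1) ?_
  have hT : Primrec (fun q : ℕ × (ℕ × List (List ℕ)) => q.2.2) := snd.comp snd
  have hi : Primrec (fun q : ℕ × (ℕ × List (List ℕ)) => q.2.1) := fst.comp snd
  exact Primrec.eq.comp (entry_primrec hT (entry_primrec hT hi fst) hi) hi

lemma testT_primrec : PrimrecPred TestT := by
  have hl : Primrec (fun T : List (List ℕ) => T.length) := Primrec.list_length
  have hT : Primrec (fun q : ℕ × (ℕ × List (List ℕ)) => q.2.2) := snd.comp snd
  have hi : Primrec (fun q : ℕ × (ℕ × List (List ℕ)) => q.2.1) := fst.comp snd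
  have hj : Primrec (fun q : ℕ × (ℕ × List (List ℕ)) => q.1) := fst
  apply PrimrecPred.and
  · refine all_lt hl (p := fun q : ℕ × List (List ℕ) => ∀ j < q.2.length,
      entry q.2 q.1 q.1 = q.1 → entry q.2 j j = j → entry q.2 q.1 j = entry q.2 j q.1) ?_
    refine all_lt (hl.comp snd) (p := fun q : ℕ × (ℕ × List (List ℕ)) =>
      entry q.2.2 q.2.1 q.2.1 = q.2.1 → entry q.2.2 q.1 q.1 = q.1 →
        entry q.2.2 q.2.1 q.1 = entry q.2.2 q.1 q.2.1) ?_
    exact imp_pred (Primrec.eq.comp (entry_primrec hT hi hi) hi)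
      (imp_pred (Primrec.eq.comp (entry_primrec hT hj hj) hj)
        (Primrec.eq.comp (entry_primrec hT hi hj) (entry_primrec hT hj hi)))
  · refine all_lt hl (p := fun q : ℕ × List (List ℕ) => ∀ j < q.2.length,
      entry q.2 (entry q.2 q.1 j) q.1 = q.1 → entry q.2 (entry q.2 j q.1) j = j →
      entry q.2 q.1 (entry q.2 (entry q.2 q.1 j) (entry q.2 j q.1)) =
        entry q.2 (entry q.2 q.1 j) (entry q.2 j q.1) → entry q.2 q.1 q.1 = q.1) ?_
    refine all_lt (hl.comp snd) (p := fun q : ℕ × (ℕ × List (List ℕ)) =>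
      entry q.2.2 (entry q.2.2 q.2.1 q.1) q.2.1 = q.2.1 →
      entry q.2.2 (entry q.2.2 q.1 q.2.1) q.1 = q.1 →
      entry q.2.2 q.2.1 (entry q.2.2 (entry q.2.2 q.2.1 q.1) (entry q.2.2 q.1 q.2.1)) =
        entry q.2.2 (entry q.2.2 q.2.1 q.1) (entry q.2.2 q.1 q.2.1) →
      entry q.2.2 q.2.1 q.2.1 = q.2.1) ?_
    have hij := entry_primrec hT hi hj
    have hji := entry_primrec hT hj hi
    have hg := entry_primrec hT hij hji
    exact imp_pred (Primrec.eq.comp (entry_primrec hT hij hi) hi)
      (imp_pred (Primrec.eq.comp (entry_primrec hT hji hj) hj)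
        (imp_pred (Primrec.eq.comp (entry_primrec hT hi hg) hg)
          (Primrec.eq.comp (entry_primrec hT hi hi) hi)))

end computability

lemma table_finite_iff (T : List (List ℕ)) :
    (IsSemigroupTable T ∧ IsRegularTable T ∧ TestT T) ↔
    (IsSemigroupTable T ∧ IsRegularTable T ∧
      ∃ (G : Type v) (_ : Group G) (_ : Finite G), TableEmbeds T G) := by
  constructor
  · rintro ⟨h, hr, ht⟩
    refine ⟨h, hr, ?_⟩
    let _ := tableSemigroup T h
    obtain ⟨G, hG, hF, h1⟩ := ((characterisation.{0, v} (Elt T)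
      ((regular_iff T h).mp hr)).out 0 2).mpr ((testT_iff T h).mp ht)
    exact ⟨G, hG, hF, (embeds_iff T h G).mpr h1⟩
  · rintro ⟨h, hr, G, hG, hF, h1⟩
    refine ⟨h, hr, ?_⟩
    let _ := tableSemigroup T h
    refine (testT_iff T h).mpr ?_
    have hex : ∃ (G : Type v) (_ : Group G) (_ : Finite G), EmbedsInPower (Elt T) G :=
      ⟨G, hG, hF, (embeds_iff T h G).mp h1⟩
    exact ((characterisation.{0, v} (Elt T) ((regular_iff T h).mp hr)).out 0 2).mp hex

lemma table_periodic_iff (T : List (List ℕ)) :
    (IsSemigroupTable T ∧ IsRegularTable T ∧ TestT T) ↔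
    (IsSemigroupTable T ∧ IsRegularTable T ∧
      ∃ (G : Type v) (_ : Group G), (∀ g : G, IsOfFinOrder g) ∧ TableEmbeds T G) := by
  constructor
  · rintro ⟨h, hr, ht⟩
    refine ⟨h, hr, ?_⟩
    let _ := tableSemigroup T h
    obtain ⟨G, hG, hF, h1⟩ := ((characterisation.{0, v} (Elt T)
      ((regular_iff T h).mp hr)).out 1 2).mpr ((testT_iff T h).mp ht)
    exact ⟨G, hG, hF, (embeds_iff T h G).mpr h1⟩
  · rintro ⟨h, hr, G, hG, hF, h1⟩
    refine ⟨h, hr, ?_⟩
    let _ := tableSemigroup T h
    refine (testT_iff T h).mpr ?_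
    have hex : ∃ (G : Type v) (_ : Group G), (∀ g : G, IsOfFinOrder g) ∧
        EmbedsInPower (Elt T) G := ⟨G, hG, hF, (embeds_iff T h G).mp h1⟩
    exact ((characterisation.{0, v} (Elt T) ((regular_iff T h).mp hr)).out 1 2).mp hex

/-- **Both questions for regular semigroups.**
(1) For a finite regular semigroup `S` the following are equivalent: `S` embeds into `P(G)` for
some finite group `G`; `S` embeds into `P(G)` for some periodic group `G`; `S` passes `TableTest`.
(2), (3) Hence there are algorithms which, given a finite table `T`, decide whether `T` is the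
multiplication table of a regular semigroup that embeds into `P(G)` for some finite group `G`,
respectively for some periodic group `G`. -/
theorem result :
    (∀ (S : Type u) [Semigroup S] [Finite S], IsRegular S →
      List.TFAE [
        ∃ (G : Type v) (_ : Group G) (_ : Finite G), EmbedsInPower S G,
        ∃ (G : Type v) (_ : Group G), (∀ g : G, IsOfFinOrder g) ∧ EmbedsInPower S G,
        TableTest S]) ∧
    (ComputablePred fun T : List (List ℕ) => IsSemigroupTable T ∧ IsRegularTable T ∧
      ∃ (G : Type v) (_ : Group G) (_ : Finite G), TableEmbeds T G) ∧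
    (ComputablePred fun T : List (List ℕ) => IsSemigroupTable T ∧ IsRegularTable T ∧
      ∃ (G : Type v) (_ : Group G), (∀ g : G, IsOfFinOrder g) ∧ TableEmbeds T G) := by
  have h0 : ComputablePred fun T : List (List ℕ) =>
      IsSemigroupTable T ∧ IsRegularTable T ∧ TestT T :=
    (isSemigroupTable_primrec.and (isRegularTable_primrec.and testT_primrec)).computablePred
  refine ⟨?_, ?_, ?_⟩
  · intro S _ _ hreg
    exact characterisation S hreg
  · exact h0.of_eq table_finite_iff
  · exact h0.of_eq table_periodic_iff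

end Pool.Agent.Results.MP_01f640_al.RegularSemigroups
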